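import Pool.Agent.Lib.MP_defcf3_al.BR.BaseC

/-!
Project BR7, module CYCZ (D7): all classes (f, χ) over F vanish if the 7-power torsion of Br(F) has
bounded exponent (paper, section 5).
-/

set_option linter.all false

namespace BR7.H84

universe u

section generic

variable {G A : Type u} [Group G] [TopologicalSpace G] [IsTopologicalGroup G] [CommGroup A]
    [MulDistribMulAction G A]

lemma gcup_punit (n : ℕ) (a : A) (χ : G → ZMod n) :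
    gcup (X := PUnit.{u + 1}) n (fun _ => a) (fun g _ => χ g) = cup n a χ := by
  funext g h
  simp [gcup, cup]

lemma openStab_punit : OpenStab G PUnit.{u + 1} := by
  intro x
  have : {g : G | g • x = x} = Set.univ := by
    ext g
    simp
  rw [this]
  exact isOpen_univ

lemma openStab_quot (N : Subgroup G) (hN : IsOpen (N : Set G)) : OpenStab G (G ⧸ N) := by
  intro x
  induction x using QuotientGroup.induction_on with
  | H h =>
    have h1 : {g : G | g • (QuotientGroup.mk h : G ⧸ N) = QuotientGroup.mk h} =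
        (fun g => h⁻¹ * g * h) ⁻¹' (N : Set G) := by
      ext g
      simp only [Set.mem_setOf_eq, Set.mem_preimage, SetLike.mem_coe]
      have h2 : g • (QuotientGroup.mk h : G ⧸ N) = QuotientGroup.mk (g * h) := rfl
      rw [h2, eq_comm, QuotientGroup.eq, mul_assoc]
    rw [h1]
    exact hN.preimage (by fun_prop)

lemma mem_of_pow_coprime {M : Type*} [CommGroup M] (B : Subgroup M) (x : M) (e : ℕ)
    (he : Nat.Coprime e 7) (h1 : x ^ e ∈ B) (h2 : x ^ 7 ∈ B) : x ∈ B := by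
  have h3 : (x : M) = (x ^ e) ^ (Nat.gcdA e 7) * (x ^ 7) ^ (Nat.gcdB e 7) := by
    rw [← zpow_natCast, ← zpow_natCast, ← zpow_mul, ← zpow_mul, ← zpow_add]
    have h4 := Nat.gcd_eq_gcd_ab e 7
    rw [he.gcd_eq_one] at h4
    rw [← h4]
    simp
  rw [h3]
  exact mul_mem (zpow_mem h1 _) (zpow_mem h2 _)

lemma mem_of_mul_inv {M : Type*} [CommGroup M] {B : Subgroup M} {x y : M}
    (h : x * y⁻¹ ∈ B) (hy : y ∈ B) : x ∈ B := by
  have := mul_mem h hy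
  rwa [inv_mul_cancel_right] at this

lemma mem_of_mul_inv' {M : Type*} [CommGroup M] {B : Subgroup M} {x y : M}
    (h : x * y⁻¹ ∈ B) (hx : x ∈ B) : y ∈ B := by
  have := mul_mem (inv_mem h) hx
  rw [mul_inv_rev, inv_inv, inv_mul_cancel_right] at this
  exact this

end generic

theorem cycz (hGZ : GcupZStatement.{u}) (hGADD : GcupAddStatement.{u})
    (hGTORS : GcupTorsStatement.{u}) (hGCOB : GcupCobStatement.{u}) (hGMOD : GcupModStatement.{u})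
    (hPUSH : GcupPushStatement.{u}) (hGCHAR : GCharStatement.{u}) (hNCONV : NormConvStatement.{u})
    (hDISC : DiscStatement.{u}) (hH90 : H90Statement.{u}) (hCYCLO : CycloStatement.{u})
    (hROOT : RootStatement.{u}) (hINDEX : IndexStatement.{u}) : CycZeroStatement.{u} := by
  intro F Ω _ _ _ _ _ ζ hζ κ hbr a χ ha hχ hχc
  classical
  let G := Ω ≃ₐ[F] Ω
  have hdisc : Disc (Ω ≃ₐ[F] Ω) Ωˣ := hDISC F Ω
  obtain ⟨X, hX, hXc, hXk, hXf⟩ := hCYCLO F Ω ζ hζ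
  haveI : ∀ m : ℕ, NeZero (7 ^ m) := fun m => ⟨pow_ne_zero _ (by norm_num)⟩
  -- step 1
  have hstep1 : cup (7 ^ κ) a (X κ) ∈ B2 (Ω ≃ₐ[F] Ω) Ωˣ := by
    have h1 := hGMOD (Ω ≃ₐ[F] Ω) Ωˣ PUnit.{u + 1} hdisc openStab_punit (7 ^ κ) (7 ^ κ)
      (7 ^ (κ + κ)) (pow_dvd_pow 7 (Nat.le_add_right κ κ)) (pow_add 7 κ κ) (fun _ => a)
      (fun g _ => X (κ + κ) g) (fun g _ => (ha g).symm) (fun g h _ => hX _ g h)
      (fun _ => hXc _)
    simp only [hXk κ κ] at h1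
    rw [gcup_punit, gcup_punit] at h1
    have hz : cup (7 ^ (κ + κ)) a (X (κ + κ)) ∈ Z2 (Ω ≃ₐ[F] Ω) Ωˣ := by
      rw [← gcup_punit]
      exact hGZ (Ω ≃ₐ[F] Ω) Ωˣ PUnit.{u + 1} hdisc openStab_punit _ (fun _ => a)
        (fun g _ => X (κ + κ) g) (fun g _ => (ha g).symm) (fun g h _ => hX _ g h)
        (fun _ => hXc _)
    have ht : cup (7 ^ (κ + κ)) a (X (κ + κ)) ^ (7 ^ (κ + κ)) ∈ B2 (Ω ≃ₐ[F] Ω) Ωˣ := by
      rw [← gcup_punit]
      exact hGTORS (Ω ≃ₐ[F] Ω) Ωˣ PUnit.{u + 1} hdisc openStab_punit _ (fun _ => a)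
        (fun g _ => X (κ + κ) g) (fun g _ => (ha g).symm) (fun g h _ => hX _ g h)
        (fun _ => hXc _)
    exact mem_of_mul_inv' h1 (hbr _ hz ⟨_, ht⟩)
  -- the kernel of the cyclotomic character
  have hX1 : X κ 1 = 0 := by
    have := hX κ 1 1
    rw [mul_one] at this
    exact left_eq_add.1 this
  let U : Subgroup (Ω ≃ₐ[F] Ω) :=
    { carrier := {g | X κ g = 0}
      one_mem' := hX1
      mul_mem' := by
        intro g h hg hh
        show X κ (g * h) = 0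
        rw [hX, show X κ g = 0 from hg, show X κ h = 0 from hh, add_zero]
      inv_mem' := by
        intro g hg
        show X κ g⁻¹ = 0
        have h1 := hX κ g g⁻¹
        rw [mul_inv_cancel, hX1, show X κ g = 0 from hg, zero_add] at h1
        exact h1.symm }
  have hU : ∀ g, g ∈ U ↔ X κ g = 0 := fun g => Iff.rfl
  have hUo : IsOpen (U : Set (Ω ≃ₐ[F] Ω)) := (hXc κ).isOpen_fiber 0
  have hH1 : H1Triv U Ωˣ := by
    intro c hc hcc
    have h1 := hH90 F Ω U hUo ⊤ isOpen_univ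
    obtain ⟨y, hy⟩ := h1 (fun x => c x.1) (hc.comp_continuous continuous_subtype_val)
      (fun g h => hcc g.1 h.1)
    exact ⟨y, fun g => hy ⟨g, Subgroup.mem_top g⟩⟩
  obtain ⟨w, hw, hwN⟩ := hNCONV (Ω ≃ₐ[F] Ω) Ωˣ hdisc (7 ^ κ) (X κ) (hX κ) (hXc κ) U hU hH1 a ha
    hstep1
  obtain ⟨hNo, hNfi, hNcop⟩ := hINDEX F Ω ζ hζ U hUo
  set N : Subgroup (Ω ≃ₐ[F] Ω) := U ⊓ HZ F ζ with hN
  haveI : Fintype ((Ω ≃ₐ[F] Ω) ⧸ N) := Subgroup.fintypeQuotientOfFiniteIndex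
  have hprod := hwN N inf_le_left
  set e := N.relIndex U with he
  -- the equivariant function
  let v : ((Ω ≃ₐ[F] Ω) ⧸ N) → Ωˣ := fun x => (Quotient.out x) • w
  have hvmk : ∀ g : Ω ≃ₐ[F] Ω, v (QuotientGroup.mk g) = g • w := by
    intro g
    obtain ⟨n, hn⟩ := QuotientGroup.mk_out_eq_mul N g
    show (Quotient.out (QuotientGroup.mk g : (Ω ≃ₐ[F] Ω) ⧸ N)) • w = g • w
    have h1 : Quotient.out (QuotientGroup.mk g : (Ω ≃ₐ[F] Ω) ⧸ N) = g * (n : Ω ≃ₐ[F] Ω) := hn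
    rw [h1, mul_smul, hw n (inf_le_left (a := U) n.2)]
  have hveq : EqvF (G := Ω ≃ₐ[F] Ω) v := by
    intro g x
    induction x using QuotientGroup.induction_on with
    | H h =>
      have h2 : g • (QuotientGroup.mk h : (Ω ≃ₐ[F] Ω) ⧸ N) = QuotientGroup.mk (g * h) := rfl
      rw [h2, hvmk, hvmk, mul_smul]
  have hos : OpenStab (Ω ≃ₐ[F] Ω) ((Ω ≃ₐ[F] Ω) ⧸ N) := openStab_quot N hNo
  have hpush : cup 7 (a ^ e) χ =
      gcup (X := (Ω ≃ₐ[F] Ω) ⧸ N) 7 v (fun g _ => χ g) := by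
    have h1 := hPUSH (Ω ≃ₐ[F] Ω) Ωˣ ((Ω ≃ₐ[F] Ω) ⧸ N) PUnit.{u + 1} 7 (fun _ => PUnit.unit)
      (fun _ _ => rfl) v (fun g _ => χ g)
    rw [h1, ← gcup_punit]
    congr 1
    funext y
    rw [← hprod]
    symm
    apply Finset.prod_congr _ (fun _ _ => rfl)
    ext x
    simp
  -- the groupoid character
  obtain ⟨ψ, hψ, hψc, hψN⟩ := hROOT F Ω ζ hζ κ N hNo (by
    intro g hg x hx
    exact hXf κ g (inf_le_right (a := U) hg) ((hU g).1 (inf_le_left (a := U) hg)) x hx) χ hχ hχc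
  let ψ' : (Ω ≃ₐ[F] Ω) → ((Ω ≃ₐ[F] Ω) ⧸ N) → ZMod 7 := fun g x =>
    ZMod.castHom (dvd_pow_self 7 (Nat.succ_ne_zero κ)) (ZMod 7) (ψ g x)
  have hψ' : GChar 7 ψ' := by
    intro g h x
    show ZMod.castHom _ (ZMod 7) (ψ (g * h) x) = _
    rw [hψ g h x, map_add]
  have hψ'c : ∀ x, IsLocallyConstant (fun g => ψ' g x) := by
    intro x
    exact (hψc x).comp _
  obtain ⟨ρ, hρ⟩ := hGCHAR (Ω ≃ₐ[F] Ω) ((Ω ≃ₐ[F] Ω) ⧸ N) 7 (fun g _ => χ g) ψ'
    (QuotientGroup.mk 1) (fun g h _ => hχ g h) hψ' (by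
      intro x
      induction x using QuotientGroup.induction_on with
      | H h => exact ⟨h, by show (QuotientGroup.mk (h * 1) : (Ω ≃ₐ[F] Ω) ⧸ N) = _; rw [mul_one]⟩)
    (by
      intro g hg
      have h1 : g ∈ N := by
        have h2 : (QuotientGroup.mk (g * 1) : (Ω ≃ₐ[F] Ω) ⧸ N) = QuotientGroup.mk 1 := hg
        rw [mul_one, eq_comm, QuotientGroup.eq, inv_one, one_mul] at h2
        exact h2
      exact (hψN g h1).symm)
  have hA1 := hGADD (Ω ≃ₐ[F] Ω) Ωˣ ((Ω ≃ₐ[F] Ω) ⧸ N) hdisc hos 7 v ψ'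
    (fun g x => ρ (g • x) - ρ x) hveq hψ' (by
      intro g h x
      show ρ ((g * h) • x) - ρ x = (ρ (g • h • x) - ρ (h • x)) + (ρ (h • x) - ρ x)
      rw [mul_smul]
      ring) hψ'c (by
      intro x
      have h1 : IsLocallyConstant (fun g : Ω ≃ₐ[F] Ω => g • x) := by
        rw [IsLocallyConstant.iff_isOpen_fiber]
        intro y
        by_cases hy : ∃ g₀ : Ω ≃ₐ[F] Ω, g₀ • x = y
        · obtain ⟨g₀, hg₀⟩ := hy
          have h2 : (fun g : Ω ≃ₐ[F] Ω => g • x) ⁻¹' {y} =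
              (fun g => g₀⁻¹ * g) ⁻¹' {g | g • x = x} := by
            ext g
            simp only [Set.mem_preimage, Set.mem_singleton_iff, Set.mem_setOf_eq]
            rw [mul_smul, inv_smul_eq_iff, hg₀]
          rw [h2]
          exact (hos x).preimage (by fun_prop)
        · have h2 : (fun g : Ω ≃ₐ[F] Ω => g • x) ⁻¹' {y} = ∅ := by
            ext g
            simp only [Set.mem_preimage, Set.mem_singleton_iff, Set.mem_empty_iff_false, iff_false]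
            exact fun h => hy ⟨g, h⟩
          rw [h2]
          exact isOpen_empty
      exact h1.comp (fun y => ρ y - ρ x))
  have hA2 := hGCOB (Ω ≃ₐ[F] Ω) Ωˣ ((Ω ≃ₐ[F] Ω) ⧸ N) hdisc hos 7 v ρ hveq
  have hA3 := hGMOD (Ω ≃ₐ[F] Ω) Ωˣ ((Ω ≃ₐ[F] Ω) ⧸ N) hdisc hos 7 (7 ^ κ) (7 ^ (κ + 1))
    (dvd_pow_self 7 (Nat.succ_ne_zero κ)) (pow_succ' 7 κ) v ψ hveq hψ hψc
  have hA4 := hGZ (Ω ≃ₐ[F] Ω) Ωˣ ((Ω ≃ₐ[F] Ω) ⧸ N) hdisc hos (7 ^ (κ + 1)) v ψ hveq hψ hψc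
  have hA5 := hGTORS (Ω ≃ₐ[F] Ω) Ωˣ ((Ω ≃ₐ[F] Ω) ⧸ N) hdisc hos (7 ^ (κ + 1)) v ψ hveq hψ hψc
  have hA6 : gcup 7 v ψ' ∈ B2 (Ω ≃ₐ[F] Ω) Ωˣ := mem_of_mul_inv' hA3 (hbr _ hA4 ⟨_, hA5⟩)
  have hA7 : gcup (X := (Ω ≃ₐ[F] Ω) ⧸ N) 7 v (fun g _ => χ g) ∈ B2 (Ω ≃ₐ[F] Ω) Ωˣ := by
    have h1 : (fun (g : Ω ≃ₐ[F] Ω) (_ : (Ω ≃ₐ[F] Ω) ⧸ N) => χ g) =
        (fun g x => ψ' g x + (ρ (g • x) - ρ x)) := by
      funext g x
      exact hρ g x
    rw [h1]
    exact mem_of_mul_inv hA1 (mul_mem hA6 hA2)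
  have hA8 : (cup 7 a χ) ^ e ∈ B2 (Ω ≃ₐ[F] Ω) Ωˣ := by
    have h1 : (cup 7 a χ) ^ e = cup 7 (a ^ e) χ := by
      funext g h
      show (a ^ carry 7 (χ g) (χ h)) ^ e = (a ^ e) ^ carry 7 (χ g) (χ h)
      rw [← pow_mul, ← pow_mul, mul_comm]
    rw [h1, hpush]
    exact hA7
  have hA9 : (cup 7 a χ) ^ 7 ∈ B2 (Ω ≃ₐ[F] Ω) Ωˣ := by
    rw [← gcup_punit]
    exact hGTORS (Ω ≃ₐ[F] Ω) Ωˣ PUnit.{u + 1} hdisc openStab_punit 7 (fun _ => a)
      (fun g _ => χ g) (fun g _ => (ha g).symm) (fun g h _ => hχ g h) (fun _ => hχc)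
  exact mem_of_pow_coprime _ _ e hNcop hA8 hA9

end BR7.H84
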