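import Pool.Agent.Lib.MP_defcf3_al.BR.BaseC

/-!
Project BR7, module NCONV (C12): converse part of the norm criterion.
-/

set_option linter.all false

namespace BR7.H84

universe u

lemma cob_aux {A : Type*} [CommGroup A] (P Q R Y Y1 Y2 : A) :
    (P * Y1⁻¹ * Y) * (Q * Y2⁻¹ * Y1) * (R * Y2⁻¹ * Y)⁻¹ = P * Q * R⁻¹ := by
  have h : ∀ P Q R Y Y1 Y2 : Additive A,
      (P + -Y1 + Y) + (Q + -Y2 + Y1) + -(R + -Y2 + Y) = P + Q + -R := by
    intros
    abel
  exact h P Q R Y Y1 Y2

lemma carry_zero_left (n : ℕ) [NeZero n] (y : ZMod n) : carry n 0 y = 0 := by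
  rw [carry, ZMod.val_zero, zero_add]
  exact Nat.div_eq_of_lt (ZMod.val_lt y)

lemma carry_zero_right (n : ℕ) [NeZero n] (y : ZMod n) : carry n y 0 = 0 := by
  rw [carry, ZMod.val_zero, add_zero]
  exact Nat.div_eq_of_lt (ZMod.val_lt y)

theorem nconv : NormConvStatement.{u} := by
  intro G A _ _ _ _ _ hdisc n _ χ hχ hχc U hU hH1 a ha hcup
  classical
  obtain ⟨b, hb, hbc⟩ := hcup
  have hχ1 : χ 1 = 0 := by
    have := hχ 1 1
    rw [mul_one] at this
    exact left_eq_add.1 this
  have hχi : ∀ g, χ g⁻¹ = -χ g := by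
    intro g
    have := hχ g g⁻¹
    rw [mul_inv_cancel, hχ1] at this
    exact (neg_eq_of_add_eq_zero_right this.symm).symm
  have hχp : ∀ g (m : ℕ), χ (g ^ m) = m * χ g := by
    intro g m
    induction m with
    | zero => simp [hχ1]
    | succ m ih => rw [pow_succ, hχ, ih]; push_cast; ring
  -- the cochain on `U`
  obtain ⟨y, hy⟩ := hH1 (fun u : U => b u) (hb.comp_continuous continuous_subtype_val) (by
    intro g h
    have h1 := hbc g h
    have h2 : cup n a χ g h = 1 := by
      rw [cup, (hU _).1 g.2, carry_zero_left, pow_zero]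
    rw [h2] at h1
    have h3 := eq_mul_inv_iff_mul_eq.1 h1
    rw [one_mul] at h3
    exact h3)
  have hy' : ∀ u ∈ U, b u = (u • y) * y⁻¹ := fun u hu => hy ⟨u, hu⟩
  let b' : G → A := fun g => b g * (g • y)⁻¹ * y
  have hb'c : ∀ g h, a ^ carry n (χ g) (χ h) = b' g * (g • b' h) * (b' (g * h))⁻¹ := by
    intro g h
    have h1 : a ^ carry n (χ g) (χ h) = b g * (g • b h) * (b (g * h))⁻¹ := hbc g h
    rw [h1]
    show _ = (b g * (g • y)⁻¹ * y) * (g • (b h * (h • y)⁻¹ * y)) *
      (b (g * h) * ((g * h) • y)⁻¹ * y)⁻¹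
    rw [smul_mul', smul_mul', smul_inv', mul_smul]
    exact (cob_aux _ _ _ _ _ _).symm
  have hb'u : ∀ u ∈ U, b' u = 1 := by
    intro u hu
    show b u * (u • y)⁻¹ * y = 1
    rw [hy' u hu]
    have h : ∀ P Q : Additive A, P + -Q + -P + Q = 0 := by
      intros
      abel
    exact h (u • y) y
  have hb'r : ∀ g, ∀ u ∈ U, b' (g * u) = b' g := by
    intro g u hu
    have h1 := hb'c g u
    rw [(hU u).1 hu, carry_zero_right, pow_zero, hb'u u hu, smul_one, mul_one] at h1
    have h2 := eq_mul_inv_iff_mul_eq.1 h1
    rwa [one_mul] at h2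
  have hb'l : ∀ g, ∀ u ∈ U, b' (u * g) = u • b' g := by
    intro g u hu
    have h1 := hb'c u g
    rw [(hU u).1 hu, carry_zero_left, pow_zero, hb'u u hu, one_mul] at h1
    have h2 := eq_mul_inv_iff_mul_eq.1 h1
    rwa [one_mul] at h2
  have hb'inv : ∀ g, ∀ u ∈ U, u • b' g = b' g := by
    intro g u hu
    rw [← hb'l g u hu]
    have h1 : u * g = g * (g⁻¹ * u * g) := by group
    rw [h1]
    apply hb'r
    rw [hU, hχ, hχ, hχi, (hU u).1 hu]
    simp
  -- the key claim
  have hclaim : ∃ w : A, (∀ u ∈ U, u • w = w) ∧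
      ∀ [Fintype (G ⧸ U)], ∏ x : G ⧸ U, (Quotient.out x) • w = a := by
    by_cases htriv : ∀ g, χ g = 0
    · refine ⟨a, fun u _ => ha u, ?_⟩
      intro _
      haveI : Subsingleton (G ⧸ U) := by
        constructor
        intro x y
        induction x using QuotientGroup.induction_on with
        | H x =>
          induction y using QuotientGroup.induction_on with
          | H y =>
            rw [QuotientGroup.eq, hU]
            exact htriv _
      rw [Fintype.prod_subsingleton _ (QuotientGroup.mk (1 : G))]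
      exact ha _
    · push Not at htriv
      obtain ⟨g₀, hg₀⟩ := htriv
      have hex : ∃ d, 0 < d ∧ ∃ g, (χ g).val = d := by
        refine ⟨(χ g₀).val, Nat.pos_of_ne_zero ?_, g₀, rfl⟩
        intro h
        exact hg₀ ((ZMod.val_eq_zero _).1 h)
      obtain ⟨hd0, s, hs⟩ := Nat.find_spec hex
      have hmin : ∀ m, 0 < m → (∃ g, (χ g).val = m) → Nat.find hex ≤ m :=
        fun m h1 h2 => Nat.find_min' hex ⟨h1, h2⟩
      generalize Nat.find hex = d at hd0 hs hmin
      have hdn : d < n := by rw [← hs]; exact ZMod.val_lt _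
      have hχs : χ s = (d : ZMod n) := by rw [← hs, ZMod.natCast_zmod_val]
      have hdvd : ∀ g, d ∣ (χ g).val := by
        intro g
        have h1 : χ (g * (s ^ ((χ g).val / d))⁻¹) = (((χ g).val % d : ℕ) : ZMod n) := by
          rw [hχ, hχi, hχp, hχs]
          have h2 : χ g = (((χ g).val : ℕ) : ZMod n) := (ZMod.natCast_zmod_val _).symm
          have h3 : (χ g).val = d * ((χ g).val / d) + (χ g).val % d := (Nat.div_add_mod _ _).symm
          have h4 : (((χ g).val : ℕ) : ZMod n) =
            (d : ZMod n) * (((χ g).val / d : ℕ) : ZMod n) + (((χ g).val % d : ℕ) : ZMod n) := by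
            exact_mod_cast congrArg (Nat.cast : ℕ → ZMod n) h3
          linear_combination h2.trans h4
        have h5 : (χ (g * (s ^ ((χ g).val / d))⁻¹)).val = (χ g).val % d := by
          rw [h1, ZMod.val_natCast]
          exact Nat.mod_eq_of_lt ((Nat.mod_lt _ hd0).trans hdn)
        by_contra h6
        have h7 : 0 < (χ g).val % d := Nat.pos_of_ne_zero (fun h => h6 (Nat.dvd_of_mod_eq_zero h))
        have h8 := hmin _ h7 ⟨_, h5⟩
        exact absurd (Nat.mod_lt _ hd0) (not_lt.2 h8)
      have hdn' : d ∣ n := by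
        have h1 : χ ((s ^ (n / d))⁻¹) = ((n % d : ℕ) : ZMod n) := by
          rw [hχi, hχp, hχs]
          have h3 : n = d * (n / d) + n % d := (Nat.div_add_mod _ _).symm
          have h4 : ((n : ℕ) : ZMod n) =
            (d : ZMod n) * ((n / d : ℕ) : ZMod n) + ((n % d : ℕ) : ZMod n) := by
            exact_mod_cast congrArg (Nat.cast : ℕ → ZMod n) h3
          rw [ZMod.natCast_self] at h4
          rw [← sub_eq_zero, ← neg_eq_zero, h4]
          ring
        have h5 : (χ ((s ^ (n / d))⁻¹)).val = n % d := by
          rw [h1, ZMod.val_natCast]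
          exact Nat.mod_eq_of_lt ((Nat.mod_lt _ hd0).trans hdn)
        by_contra h6
        have h7 : 0 < n % d := Nat.pos_of_ne_zero (fun h => h6 (Nat.dvd_of_mod_eq_zero h))
        have h8 := hmin _ h7 ⟨_, h5⟩
        exact absurd (Nat.mod_lt _ hd0) (not_lt.2 h8)
      obtain ⟨n', hn'⟩ := hdn'
      have hn'0 : 0 < n' := by
        rcases Nat.eq_zero_or_pos n' with h | h
        · subst h
          exact absurd hn' (by simpa using NeZero.ne n)
        · exact h
      have hval : ∀ j, j < n' → (χ (s ^ j)).val = d * j := by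
        intro j hj
        have h1 : χ (s ^ j) = ((d * j : ℕ) : ZMod n) := by
          rw [hχp, hχs]
          push_cast
          ring
        rw [h1, ZMod.val_natCast]
        apply Nat.mod_eq_of_lt
        calc d * j < d * n' := Nat.mul_lt_mul_of_pos_left hj hd0
          _ = n := hn'.symm
      have hprod : ∀ j, j < n' → b' (s ^ j) = ∏ i ∈ Finset.range j, (s ^ i) • b' s := by
        intro j
        induction j with
        | zero =>
          intro _
          rw [pow_zero, Finset.range_zero, Finset.prod_empty]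
          exact hb'u 1 (one_mem U)
        | succ j ih =>
          intro hj
          have h1 := hb'c s (s ^ j)
          have h2 : carry n (χ s) (χ (s ^ j)) = 0 := by
            rw [carry, hs, hval j (by omega)]
            apply Nat.div_eq_of_lt
            calc d + d * j = d * (j + 1) := by ring
              _ < d * n' := Nat.mul_lt_mul_of_pos_left hj hd0
              _ = n := hn'.symm
          rw [h2, pow_zero, ih (by omega)] at h1
          have h3 := eq_mul_inv_iff_mul_eq.1 h1
          rw [one_mul, ← pow_succ'] at h3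
          rw [h3, Finset.prod_range_succ', Finset.smul_prod', pow_zero, one_smul, mul_comm]
          congr 1
          apply Finset.prod_congr rfl
          intro i _
          rw [← mul_smul, ← pow_succ']
      have hfin : ∏ i ∈ Finset.range n', (s ^ i) • b' s = a := by
        have h1 := hb'c s (s ^ (n' - 1))
        have h2 : carry n (χ s) (χ (s ^ (n' - 1))) = 1 := by
          rw [carry, hs, hval (n' - 1) (by omega)]
          have h3 : d + d * (n' - 1) = n := by
            rw [hn']
            obtain ⟨m, rfl⟩ := Nat.exists_eq_succ_of_ne_zero hn'0.ne'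
            simp only [Nat.succ_eq_add_one, Nat.add_sub_cancel]
            ring
          rw [h3]
          exact Nat.div_self (by rw [hn']; positivity)
        rw [h2, pow_one, hprod (n' - 1) (by omega), ← pow_succ'] at h1
        have h4 : n' - 1 + 1 = n' := by omega
        rw [h4] at h1
        have h5 : b' (s ^ n') = 1 := by
          apply hb'u
          rw [hU, hχp, hχs]
          have : ((d * n' : ℕ) : ZMod n) = 0 := by rw [← hn']; exact ZMod.natCast_self n
          push_cast at this
          rw [mul_comm]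
          exact this
        rw [h5, inv_one, mul_one] at h1
        rw [h1, ← h4, Finset.prod_range_succ', Finset.smul_prod', pow_zero, one_smul, mul_comm]
        congr 1
        rw [h4]
        apply Finset.prod_congr rfl
        intro i _
        rw [← mul_smul, ← pow_succ']
      refine ⟨b' s, hb'inv s, ?_⟩
      intro _
      rw [← hfin]
      symm
      refine Finset.prod_bij (fun i _ => (QuotientGroup.mk (s ^ i) : G ⧸ U)) ?_ ?_ ?_ ?_
      · intro i _
        exact Finset.mem_univ _
      · intro i hi j hj hij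
        rw [QuotientGroup.eq, hU, hχ, hχi, neg_add_eq_zero] at hij
        have h1 := hval i (Finset.mem_range.1 hi)
        have h2 := hval j (Finset.mem_range.1 hj)
        rw [hij, h2] at h1
        exact (Nat.eq_of_mul_eq_mul_left hd0 h1).symm
      · intro x _
        induction x using QuotientGroup.induction_on with
        | H g =>
          obtain ⟨i, hi⟩ := hdvd g
          have hi' : i < n' := by
            have h1 := ZMod.val_lt (χ g)
            rw [hi] at h1
            conv_rhs at h1 => rw [hn']
            exact Nat.lt_of_mul_lt_mul_left h1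
          refine ⟨i, Finset.mem_range.2 hi', ?_⟩
          rw [QuotientGroup.eq, hU, hχ, hχi, neg_add_eq_zero]
          apply ZMod.val_injective
          rw [hval i hi', hi]
      · intro i _
        obtain ⟨u, hu⟩ := QuotientGroup.mk_out_eq_mul U (s ^ i)
        show (s ^ i) • b' s = (Quotient.out (QuotientGroup.mk (s ^ i) : G ⧸ U)) • b' s
        rw [hu, mul_smul, hb'inv s u u.2]
  -- conclusion
  obtain ⟨w, hw, hwa⟩ := hclaim
  refine ⟨w, hw, ?_⟩
  intro N _ hNU
  haveI : Finite (G ⧸ U) := by
    apply Finite.of_injective (fun x : G ⧸ U => χ (Quotient.out x))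
    intro x y hxy
    have h1 : χ (Quotient.out x) = χ (Quotient.out y) := hxy
    rw [← QuotientGroup.out_eq' x, ← QuotientGroup.out_eq' y, QuotientGroup.eq, hU, hχ, hχi, h1,
      neg_add_cancel]
  haveI : Fintype (G ⧸ U) := Fintype.ofFinite _
  let e := Subgroup.quotientEquivProdOfLE hNU
  haveI : Finite ((G ⧸ U) × (U ⧸ N.subgroupOf U)) := Finite.of_equiv _ e
  haveI : Finite (U ⧸ N.subgroupOf U) := by
    apply Finite.of_injective (fun z => ((QuotientGroup.mk (1 : G) : G ⧸ U), z))
    intro z z' h
    exact congrArg Prod.snd h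
  haveI : Fintype (U ⧸ N.subgroupOf U) := Fintype.ofFinite _
  have h1 : ∀ y : G ⧸ N, (Quotient.out y) • w = (Quotient.out (e y).1) • w := by
    intro y
    have h2 : (e y).1 = (QuotientGroup.mk (Quotient.out y) : G ⧸ U) := by
      conv_lhs => rw [← QuotientGroup.out_eq' y]
      rfl
    rw [h2]
    obtain ⟨u, hu⟩ := QuotientGroup.mk_out_eq_mul U (Quotient.out y)
    have h3 : (Quotient.out (QuotientGroup.mk (Quotient.out y) : G ⧸ U)) =
      Quotient.out y * (u : G) := hu
    rw [h3, mul_smul, hw u u.2]
  calc ∏ y : G ⧸ N, (Quotient.out y) • w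
      = ∏ y : G ⧸ N, (Quotient.out (e y).1) • w := Finset.prod_congr rfl (fun y _ => h1 y)
    _ = ∏ p : (G ⧸ U) × (U ⧸ N.subgroupOf U), (Quotient.out p.1) • w :=
        Fintype.prod_equiv e _ _ (fun y => rfl)
    _ = ∏ x : G ⧸ U, ∏ z : U ⧸ N.subgroupOf U, (Quotient.out x) • w := Fintype.prod_prod_type _
    _ = ∏ x : G ⧸ U, ((Quotient.out x) • w) ^ (N.relIndex U) := by
        apply Finset.prod_congr rfl
        intro x _
        rw [Finset.prod_const, Finset.card_univ, ← Nat.card_eq_fintype_card]
        rfl
    _ = (∏ x : G ⧸ U, (Quotient.out x) • w) ^ (N.relIndex U) := Finset.prod_pow _ _ _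
    _ = a ^ (N.relIndex U) := by rw [hwa]

end BR7.H84
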