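import Pool.Agent.Lib.MP_defcf3_al.BR.BaseC

/-!
Project BR7, module ROOT (D8): root systems. Assumes DLOG, DISC, H90.
-/

set_option linter.all false

namespace BR7.H84

universe u

theorem root (hDLOG : DlogStatement.{u}) (hDISC : DiscStatement.{u}) (hH90 : H90Statement.{u}) :
    RootStatement.{u} := by
  intro F Ω _ _ _ _ _ ζ hζ n N hNo hN χ hχ hχc
  classical
  have hdisc : Disc (Ω ≃ₐ[F] Ω) Ωˣ := hDISC F Ω
  have h7 : NeZero ((7 : ℕ) : Ω) := by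
    have h1 : IsPrimitiveRoot (ζ : Ω) 7 := IsPrimitiveRoot.coe_units_iff.2 hζ
    exact h1.neZero'
  have h7n : ∀ m : ℕ, NeZero ((7 ^ m : ℕ) : Ω) := fun m => ⟨by
    push_cast
    exact pow_ne_zero m (by exact_mod_cast h7.out)⟩
  haveI : ∀ m : ℕ, NeZero (7 ^ m) := fun m => ⟨pow_ne_zero _ (by norm_num)⟩
  -- roots
  have hroot : ∀ x : Ωˣ, ∃ y : Ωˣ, y ^ (7 ^ n) = x := by
    intro x
    haveI := h7n n
    obtain ⟨z, hz⟩ := IsSepClosed.exists_pow_nat_eq (x : Ω) (7 ^ n)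
    have hz0 : z ≠ 0 := by
      rintro rfl
      rw [zero_pow (pow_ne_zero _ (by norm_num))] at hz
      exact x.ne_zero hz.symm
    exact ⟨Units.mk0 z hz0, Units.ext (by simpa using hz)⟩
  obtain ⟨ξ, hξ⟩ := hroot ζ
  have hζ7 : ζ ^ 7 = 1 := hζ.pow_eq_one
  have hξ1 : ξ ^ 7 ^ (n + 1) = 1 := by rw [pow_succ, pow_mul, hξ, hζ7]
  haveI : Fact (Nat.Prime 7) := ⟨by norm_num⟩
  have hξo : orderOf ξ = 7 ^ (n + 1) := by
    apply orderOf_eq_prime_pow _ hξ1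
    rw [hξ]
    intro h
    have := hζ.dvd_of_pow_eq_one 1 (by rw [pow_one, h])
    norm_num at this
  have hξp : IsPrimitiveRoot ξ (7 ^ (n + 1)) := by
    rw [← hξo]
    exact IsPrimitiveRoot.orderOf ξ
  obtain ⟨hD1, hD2, -⟩ := hDLOG Ω (7 ^ (n + 1)) ξ hξp
  have hNζ : ∀ g ∈ N, g • ζ = ζ := fun g hg => hN g hg ζ (by
    rw [pow_succ', pow_mul, hζ7, one_pow])
  have hχ1 : χ 1 = 0 := by
    have := hχ 1 1
    rw [mul_one] at this
    exact left_eq_add.1 this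
  -- the Kummer generator
  have hpowadd : ∀ i j : ZMod 7, ζ ^ (i + j).val = ζ ^ i.val * ζ ^ j.val := by
    intro i j
    rw [← pow_add, ZMod.val_add]
    exact (pow_eq_pow_mod _ hζ7).symm
  obtain ⟨w, hw⟩ : ∃ w : Ωˣ, ∀ g ∈ N, g • w = ζ ^ (χ g).val * w := by
    have h1 := hH90 F Ω N hNo ⊤ isOpen_univ
    obtain ⟨y, hy⟩ := h1 (fun x => ζ ^ (χ (x : N)).val)
      ((hχc.comp_continuous (continuous_subtype_val.comp continuous_subtype_val)).comp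
        (fun i : ZMod 7 => ζ ^ i.val)) (by
        intro g h
        show ζ ^ (χ ((g : N) * (h : N) : N)).val = ζ ^ (χ (g : N)).val *
          (((g : N) : Ω ≃ₐ[F] Ω) • ζ ^ (χ (h : N)).val)
        rw [smul_pow', hNζ _ (g : N).2, Subgroup.coe_mul, hχ, hpowadd])
    refine ⟨y, fun g hg => ?_⟩
    have h2 := hy ⟨⟨g, hg⟩, Subgroup.mem_top _⟩
    have h3 : ζ ^ (χ g).val = (g • y) * y⁻¹ := h2
    rw [h3, inv_mul_cancel_right]
  obtain ⟨w', hw'⟩ := hroot w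
  -- the quotient
  let r : (Ω ≃ₐ[F] Ω) → Ωˣ := fun g => (g • w') * w'⁻¹
  have hr7 : ∀ g ∈ N, (r g) ^ (7 ^ n) = ζ ^ (χ g).val := by
    intro g hg
    show ((g • w') * w'⁻¹) ^ (7 ^ n) = _
    rw [mul_pow, inv_pow, ← smul_pow', hw', hw g hg, mul_inv_cancel_right]
  have hr1 : ∀ g ∈ N, (r g) ^ (7 ^ (n + 1)) = 1 := by
    intro g hg
    rw [pow_succ, pow_mul, hr7 g hg, ← pow_mul, mul_comm, pow_mul, hζ7, one_pow]
  have hrm : ∀ g ∈ N, ∀ h ∈ N, r (g * h) = r g * r h := by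
    intro g hg h hh
    have h1 : g • r h = r h := hN g hg _ (hr1 h hh)
    have h2 : g • r h = (g • h • w') * (g • w')⁻¹ := by
      show g • ((h • w') * w'⁻¹) = _
      rw [smul_mul', smul_inv']
    show ((g * h) • w') * w'⁻¹ = r g * r h
    rw [← h1, h2, mul_smul]
    show _ = (g • w') * w'⁻¹ * ((g • h • w') * (g • w')⁻¹)
    have h3 : ∀ P Q R : Additive Ωˣ, P + -R = Q + -R + (P + -Q) := by
      intros
      abel
    exact h3 _ _ _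
  let φ : (Ω ≃ₐ[F] Ω) → ZMod (7 ^ (n + 1)) := fun g => dlog (7 ^ (n + 1)) ξ (r g)
  have hφm : ∀ g ∈ N, ∀ h ∈ N, φ (g * h) = φ g + φ h := by
    intro g hg h hh
    show dlog (7 ^ (n + 1)) ξ (r (g * h)) = _
    rw [hrm g hg h hh, hD2 _ _ (hr1 g hg) (hr1 h hh)]
  have hφχ : ∀ g ∈ N, ZMod.castHom (dvd_pow_self 7 (Nat.succ_ne_zero n)) (ZMod 7) (φ g) = χ g := by
    intro g hg
    have h1 : ξ ^ (φ g).val = r g := hD1 _ (hr1 g hg)
    have h2 : ζ ^ (φ g).val = ζ ^ (χ g).val := by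
      rw [← hr7 g hg, ← h1, ← pow_mul, mul_comm, pow_mul, hξ]
    have h3 : (φ g).val ≡ (χ g).val [MOD 7] := by
      have h4 := pow_eq_pow_iff_modEq.1 h2
      rwa [← hζ.eq_orderOf] at h4
    have h5 := (ZMod.natCast_eq_natCast_iff _ _ 7).2 h3
    rw [ZMod.natCast_zmod_val] at h5
    rw [← h5]
    conv_lhs => rw [← ZMod.natCast_zmod_val (φ g)]
    exact map_natCast _ _
  have hφ1 : φ 1 = 0 := by
    have := hφm 1 (one_mem N) 1 (one_mem N)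
    rw [mul_one] at this
    exact left_eq_add.1 this
  -- the groupoid character
  let σ : ((Ω ≃ₐ[F] Ω) ⧸ N) → (Ω ≃ₐ[F] Ω) := Quotient.out
  have hσ : ∀ x, (QuotientGroup.mk (σ x) : (Ω ≃ₐ[F] Ω) ⧸ N) = x := fun x => QuotientGroup.out_eq' x
  have hmem : ∀ (g : Ω ≃ₐ[F] Ω) (x : (Ω ≃ₐ[F] Ω) ⧸ N), (σ (g • x))⁻¹ * g * σ x ∈ N := by
    intro g x
    rw [mul_assoc, ← QuotientGroup.eq, hσ]
    have h1 : (QuotientGroup.mk (g * σ x) : (Ω ≃ₐ[F] Ω) ⧸ N) =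
      g • (QuotientGroup.mk (σ x) : (Ω ≃ₐ[F] Ω) ⧸ N) := rfl
    rw [h1, hσ]
  let ψ : (Ω ≃ₐ[F] Ω) → ((Ω ≃ₐ[F] Ω) ⧸ N) → ZMod (7 ^ (n + 1)) := fun g x =>
    φ ((σ (g • x))⁻¹ * g * σ x)
  have hψ : GChar (7 ^ (n + 1)) ψ := by
    intro g h x
    show φ ((σ ((g * h) • x))⁻¹ * (g * h) * σ x) =
      φ ((σ (g • h • x))⁻¹ * g * σ (h • x)) + φ ((σ (h • x))⁻¹ * h * σ x)
    rw [← hφm _ (hmem _ _) _ (hmem _ _), mul_smul]
    congr 1
    group
  refine ⟨ψ, hψ, ?_, ?_⟩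
  · intro x
    rw [IsLocallyConstant.iff_exists_open]
    intro g₀
    -- a neighbourhood of 1
    let V : Set (Ω ≃ₐ[F] Ω) := (fun v => (σ x)⁻¹ * v * σ x) ⁻¹'
      ((N : Set (Ω ≃ₐ[F] Ω)) ∩ {g | g • w' = w'})
    have hV : IsOpen V := (hNo.inter (hdisc w')).preimage (by fun_prop)
    have hVx : ∀ v ∈ V, v • x = x ∧ ψ v x = 0 := by
      intro v hv
      have h1 : (σ x)⁻¹ * v * σ x ∈ N := hv.1
      have h2 : ((σ x)⁻¹ * v * σ x) • w' = w' := hv.2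
      have h3 : v • x = x := by
        have h4 : (QuotientGroup.mk (v * σ x) : (Ω ≃ₐ[F] Ω) ⧸ N) =
          v • (QuotientGroup.mk (σ x) : (Ω ≃ₐ[F] Ω) ⧸ N) := rfl
        rw [hσ] at h4
        rw [← h4]
        conv_rhs => rw [← hσ x]
        rw [eq_comm, QuotientGroup.eq, ← mul_assoc]
        exact h1
      refine ⟨h3, ?_⟩
      show φ ((σ (v • x))⁻¹ * v * σ x) = 0
      rw [h3]
      show dlog (7 ^ (n + 1)) ξ ((((σ x)⁻¹ * v * σ x) • w') * w'⁻¹) = 0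
      have h5 : dlog (7 ^ (n + 1)) ξ (((1 : Ω ≃ₐ[F] Ω) • w') * w'⁻¹) = 0 := hφ1
      rw [one_smul] at h5
      rw [h2, h5]
    refine ⟨(fun g => g₀⁻¹ * g) ⁻¹' V, hV.preimage (by fun_prop), ?_, ?_⟩
    · show g₀⁻¹ * g₀ ∈ V
      rw [inv_mul_cancel]
      constructor
      · show (σ x)⁻¹ * 1 * σ x ∈ N
        rw [mul_one, inv_mul_cancel]
        exact one_mem N
      · show ((σ x)⁻¹ * 1 * σ x) • w' = w'
        rw [mul_one, inv_mul_cancel, one_smul]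
    · intro g hg
      obtain ⟨h1, h2⟩ := hVx _ hg
      have h3 := hψ g₀ (g₀⁻¹ * g) x
      rw [mul_inv_cancel_left, h1, h2, add_zero] at h3
      exact h3
  · intro g hg
    have h1 : g • (QuotientGroup.mk 1 : (Ω ≃ₐ[F] Ω) ⧸ N) = QuotientGroup.mk 1 := by
      have h4 : (QuotientGroup.mk (g * 1) : (Ω ≃ₐ[F] Ω) ⧸ N) =
          g • (QuotientGroup.mk 1 : (Ω ≃ₐ[F] Ω) ⧸ N) := rfl
      rw [← h4, eq_comm, QuotientGroup.eq]
      simpa using hg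
    have h2 : σ (QuotientGroup.mk 1) ∈ N := by
      have h3 := hσ (QuotientGroup.mk 1)
      rw [eq_comm, QuotientGroup.eq] at h3
      simpa using h3
    show ZMod.castHom _ (ZMod 7) (φ ((σ (g • QuotientGroup.mk 1))⁻¹ * g * σ (QuotientGroup.mk 1))) =
      χ g
    rw [h1]
    have h4 : φ ((σ (QuotientGroup.mk 1))⁻¹ * g * σ (QuotientGroup.mk 1)) = φ g := by
      rw [hφm _ (mul_mem (inv_mem h2) hg) _ h2, hφm _ (inv_mem h2) _ hg]
      have h5 := hφm _ (inv_mem h2) _ h2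
      rw [inv_mul_cancel, hφ1] at h5
      rw [add_right_comm, ← h5, zero_add]
    rw [h4]
    exact hφχ g hg

end BR7.H84
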